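import Pool.Agent.Helper14.PW.POEd

set_option autoImplicit false
set_option maxHeartbeats 400000

namespace Pool.Agent.Helper14.PW

open MeasureTheory Filter Topology Pool.Agent.Helper95.PW

theorem poe_null {n : ℕ} {k l : Fin n} (hkl : k ≠ l) : ∀ᵐ x : Cf n, nr (x k - x l) ≠ 0 := by
  let φ : Cf n →ₗ[ℝ] ℝ :=
    ((LinearMap.proj (0 : Fin 3) : R3 →ₗ[ℝ] ℝ).comp (LinearMap.proj k : Cf n →ₗ[ℝ] R3)) -
    ((LinearMap.proj (0 : Fin 3) : R3 →ₗ[ℝ] ℝ).comp (LinearMap.proj l : Cf n →ₗ[ℝ] R3))
  have hφ : ∀ x, φ x = x k 0 - x l 0 := fun x => rfl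
  have hne : LinearMap.ker φ ≠ ⊤ := by
    intro h
    have h1 : (Pi.single k (Pi.single 0 1) : Cf n) ∈ LinearMap.ker φ := by
      rw [h]
      exact Submodule.mem_top
    rw [LinearMap.mem_ker, hφ] at h1
    rw [Pi.single_eq_same, Pi.single_eq_of_ne hkl.symm] at h1
    simp at h1
  have h0 := Measure.addHaar_submodule (volume : Measure (Cf n)) (LinearMap.ker φ) hne
  rw [ae_iff]
  refine measure_mono_null ?_ h0
  intro x hx
  simp only [ne_eq, not_not, Set.mem_setOf_eq] at hx
  show φ x = 0
  rw [hφ]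
  have h1 := poe_abs_le_nr (x k - x l) 0
  rw [hx] at h1
  exact abs_eq_zero.1 (le_antisymm h1 (abs_nonneg _))

theorem poe_nr_cont : Continuous nr := by
  unfold nr
  fun_prop

theorem poe_q_eq {n : ℕ} (k l : Fin n) (e : ℝ) (x : Cf n) :
    poeq k l e x = nr (x k - x l) ^ 2 + e ^ 2 := by
  unfold nr poeq
  rw [Real.sq_sqrt (by positivity)]
  rfl

theorem poe_nr_nonneg (y : R3) : 0 ≤ nr y := Real.sqrt_nonneg _

/-- the limit -/
theorem poe_lim {n : ℕ} {k l : Fin n} (hkl : k ≠ l) {F : Cf n → ℝ} (hF : Continuous F)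
    (hi : Integrable (fun x => 1 / nr (x k - x l) * F x)) :
    Tendsto (fun m : ℕ => ∫ x, poew k l (1 / ((m : ℝ) + 1)) x * F x) atTop
      (𝓝 (∫ x, 1 / nr (x k - x l) * F x)) := by
  have hnull := poe_null hkl
  refine tendsto_integral_of_dominated_convergence (fun x => ‖1 / nr (x k - x l) * F x‖)
    (fun m => ?_) hi.norm (fun m => ?_) ?_
  · have he : (0 : ℝ) < 1 / ((m : ℝ) + 1) := by positivity
    exact ((poew_cd k l he).continuous.mul hF).aestronglyMeasurable
  · filter_upwards [hnull] with x hx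
    have hpos : 0 < nr (x k - x l) := lt_of_le_of_ne (poe_nr_nonneg _) (Ne.symm hx)
    rw [norm_mul, norm_mul]
    refine mul_le_mul_of_nonneg_right ?_ (norm_nonneg _)
    unfold poew
    rw [Real.norm_of_nonneg (by positivity), Real.norm_of_nonneg (by positivity),
      one_div (nr (x k - x l))]
    refine inv_anti₀ hpos ?_
    refine Real.le_sqrt_of_sq_le ?_
    rw [poe_q_eq]
    have := sq_nonneg (1 / ((m : ℝ) + 1))
    linarith
  · filter_upwards [hnull] with x hx
    have hpos : 0 < nr (x k - x l) := lt_of_le_of_ne (poe_nr_nonneg _) (Ne.symm hx)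
    refine Tendsto.mul ?_ tendsto_const_nhds
    unfold poew
    rw [one_div]
    refine Tendsto.inv₀ ?_ hx
    have h1 : Tendsto (fun m : ℕ => nr (x k - x l) ^ 2 + (1 / ((m : ℝ) + 1)) ^ 2) atTop
        (𝓝 (nr (x k - x l) ^ 2 + 0 ^ 2)) :=
      tendsto_const_nhds.add (tendsto_one_div_add_atTop_nhds_zero_nat.pow 2)
    have h2 := h1.sqrt
    rw [show nr (x k - x l) ^ 2 + (0 : ℝ) ^ 2 = nr (x k - x l) ^ 2 by ring,
      Real.sqrt_sq hpos.le] at h2
    refine h2.congr fun m => ?_
    rw [poe_q_eq]

theorem poe_rep_nonneg {n : ℕ} (x : Cf n) : 0 ≤ rep x := by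
  unfold rep
  refine Finset.sum_nonneg fun k _ => Finset.sum_nonneg fun l _ => ?_
  split_ifs
  · have := poe_nr_nonneg (x k - x l)
    positivity
  · exact le_rfl

theorem poe_le_rep {n : ℕ} {k l : Fin n} (hkl : k < l) (x : Cf n) :
    1 / nr (x k - x l) ≤ rep x := by
  unfold rep
  have h0 : ∀ k' : Fin n, ∀ l' : Fin n, 0 ≤ (if k' < l' then 1 / nr (x k' - x l') else 0) := by
    intro k' l'
    split_ifs
    · have := poe_nr_nonneg (x k' - x l')
      positivity
    · exact le_rfl
  calc 1 / nr (x k - x l) = (if k < l then 1 / nr (x k - x l) else 0) := by rw [if_pos hkl]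
    _ ≤ ∑ l', (if k < l' then 1 / nr (x k - x l') else 0) :=
        Finset.single_le_sum (f := fun l' => if k < l' then 1 / nr (x k - x l') else 0)
          (fun l' _ => h0 k l') (Finset.mem_univ l)
    _ ≤ _ := Finset.single_le_sum
          (f := fun k' => ∑ l', (if k' < l' then 1 / nr (x k' - x l') else 0))
          (fun k' _ => Finset.sum_nonneg fun l' _ => h0 k' l') (Finset.mem_univ k)

theorem poe_pi {n : ℕ} {k l : Fin n} (hkl : k < l) {F : Cf n → ℝ} (hF : Continuous F)
    (hi : Integrable (fun x => rep x * F x)) :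
    Integrable (fun x => 1 / nr (x k - x l) * F x) := by
  refine Integrable.mono hi ?_ ?_
  · have h1 : Measurable (fun x : Cf n => 1 / nr (x k - x l)) := by
      have : Continuous (fun x : Cf n => nr (x k - x l)) :=
        poe_nr_cont.comp ((continuous_apply k).sub (continuous_apply l))
      exact measurable_const.div this.measurable
    exact h1.aestronglyMeasurable.mul hF.aestronglyMeasurable
  · refine Filter.Eventually.of_forall fun x => ?_
    rw [norm_mul, norm_mul]
    refine mul_le_mul_of_nonneg_right ?_ (norm_nonneg _)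
    have h0 := poe_nr_nonneg (x k - x l)
    rw [Real.norm_of_nonneg (by positivity), Real.norm_of_nonneg (poe_rep_nonneg x)]
    exact poe_le_rep hkl x

/-- the integral against the repulsion as a sum over pairs -/
theorem poe_sum {n : ℕ} {F : Cf n → ℝ} (hF : Continuous F)
    (hi : Integrable (fun x => rep x * F x)) :
    ∫ x, rep x * F x = ∑ k : Fin n, ∑ l : Fin n,
      if k < l then ∫ x, 1 / nr (x k - x l) * F x else 0 := by
  have e : ∀ x : Cf n, rep x * F x = ∑ k : Fin n, ∑ l : Fin n,
      if k < l then 1 / nr (x k - x l) * F x else 0 := by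
    intro x
    unfold rep
    rw [Finset.sum_mul]
    refine Finset.sum_congr rfl fun k _ => ?_
    rw [Finset.sum_mul]
    refine Finset.sum_congr rfl fun l _ => ?_
    split_ifs
    · rfl
    · exact zero_mul _
  have hI : ∀ k l : Fin n, Integrable (fun x : Cf n =>
      if k < l then 1 / nr (x k - x l) * F x else 0) := by
    intro k l
    split_ifs with h
    · exact poe_pi h hF hi
    · exact integrable_zero _ _ _
  simp only [e]
  rw [integral_finset_sum _ fun k _ => integrable_finset_sum _ fun l _ => hI k l]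
  refine Finset.sum_congr rfl fun k _ => ?_
  rw [integral_finset_sum _ fun l _ => hI k l]
  refine Finset.sum_congr rfl fun l _ => ?_
  split_ifs
  · rfl
  · exact integral_zero _ _

theorem st_POE (hPAN : ST_PAN) (hSTB : ST_STB) (hINT : ST_INT) (_hHA2 : ST_HA2) : ST_POE := by
  refine ⟨54, by norm_num, ?_⟩
  intro n g K r u hS hr hu
  have hg := hS.sm
  have key : ∀ s, (∫ x, rep x * Pg g (u s) x ^ 2) +
      (∫ x, rep x * (Pg g (Pg g (u s)) x * u s x)) ≤
      54 * (K ^ 2 / r ^ 2) * ∫ x, rep x * u s x ^ 2 := by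
    intro s
    obtain ⟨hv, hvc⟩ := hu s
    obtain ⟨hp, hpc⟩ := poe_sm hSTB hg hv hvc
    obtain ⟨hpp, hppc⟩ := poe_sm hSTB hg hp hpc
    have e1 : (fun x => rep x * Pg g (u s) x ^ 2) =
        fun x => rep x * (Pg g (u s) x * Pg g (u s) x) := by
      funext x
      ring
    have e2 : (fun x => rep x * u s x ^ 2) = fun x => rep x * (u s x * u s x) := by
      funext x
      ring
    rw [e1, e2]
    have J1 := (hINT n _ _ hp hpc hp hpc).2.1
    have J2 := (hINT n _ _ hpp hppc hv hvc).2.1
    have J3 := (hINT n _ _ hv hvc hv hvc).2.1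
    have c1 : Continuous (fun x => Pg g (u s) x * Pg g (u s) x) := hp.continuous.mul hp.continuous
    have c2 : Continuous (fun x => Pg g (Pg g (u s)) x * u s x) := hpp.continuous.mul hv.continuous
    have c3 : Continuous (fun x => u s x * u s x) := hv.continuous.mul hv.continuous
    rw [poe_sum c1 J1, poe_sum c2 J2, poe_sum c3 J3, Finset.mul_sum, ← Finset.sum_add_distrib]
    refine Finset.sum_le_sum fun k _ => ?_
    rw [Finset.mul_sum, ← Finset.sum_add_distrib]
    refine Finset.sum_le_sum fun l _ => ?_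
    split_ifs with hkl
    · have t1 := poe_lim hkl.ne c1 (poe_pi hkl c1 J1)
      have t2 := poe_lim hkl.ne c2 (poe_pi hkl c2 J2)
      have t3 := (poe_lim hkl.ne c3 (poe_pi hkl c3 J3)).const_mul (54 * (K ^ 2 / r ^ 2))
      refine le_of_tendsto_of_tendsto (t1.add t2) t3 (Filter.Eventually.of_forall fun m => ?_)
      have he : (0 : ℝ) < 1 / ((m : ℝ) + 1) := by positivity
      have h1 := poe_pair hPAN hSTB hS hr k l he hv hvc
      simp only [pow_two] at h1 ⊢
      exact h1
    · simp
  unfold pair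
  have hsum := Finset.sum_le_sum fun (s : Fin n → Fin 2) (_ : s ∈ Finset.univ) => key s
  rw [Finset.sum_add_distrib, ← Finset.mul_sum] at hsum
  refine hsum.trans (le_of_eq ?_)
  ring

end Pool.Agent.Helper14.PW
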