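import Pool.Agent.Helper95.PW.Stmts

set_option autoImplicit false

namespace Pool.Agent.Helper14.PW

open MeasureTheory Filter Topology Pool.Agent.Helper95.PW

/-! ### the vector field -/

/-- the vector field -/
noncomputable def poeF {n : ℕ} (g : R3 → ℝ) (x : Cf n) : Cf n := fun k i => pd i g (x k)

/-- derivative along the field -/
noncomputable def poeD {n : ℕ} (g : R3 → ℝ) (h : Cf n → ℝ) (x : Cf n) : ℝ :=
  ∑ k, ∑ i, pd i g (x k) * dv k i h x

theorem poeD_eq {n : ℕ} (g : R3 → ℝ) (h : Cf n → ℝ) (x : Cf n) :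
    poeD g h x = fderiv ℝ h x (poeF g x) := by
  have e : poeF g x = ∑ k, ∑ i, pd i g (x k) •
      (Pi.single k (Pi.single i 1) : Cf n) := by
    funext k' i'
    simp only [poeF, Finset.sum_apply, Pi.smul_apply, smul_eq_mul]
    rw [Finset.sum_eq_single k']
    · rw [Finset.sum_eq_single i']
      · simp
      · intro i _ hi
        simp [hi.symm]
      · intro hh
        exact absurd (Finset.mem_univ _) hh
    · intro k _ hk
      refine Finset.sum_eq_zero fun i _ => ?_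
      rw [Pi.single_eq_of_ne hk.symm]
      simp
    · intro hh
      exact absurd (Finset.mem_univ _) hh
  rw [e, map_sum]
  unfold poeD
  refine Finset.sum_congr rfl fun k _ => ?_
  rw [map_sum]
  refine Finset.sum_congr rfl fun i _ => ?_
  rw [map_smul]
  rfl

theorem poe_mul {n : ℕ} (g : R3 → ℝ) (h v : Cf n → ℝ) (x : Cf n)
    (hh : DifferentiableAt ℝ h x) (hv : DifferentiableAt ℝ v x) :
    Pg g (fun y => h y * v y) x = h x * Pg g v x + poeD g h x * v x := by
  have e : ∀ k i, dv k i (fun y => h y * v y) x = h x * dv k i v x + v x * dv k i h x := by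
    intro k i
    unfold dv
    rw [fderiv_fun_mul hh hv]
    simp
  unfold Pg poeD
  rw [Finset.mul_sum, Finset.sum_mul, ← Finset.sum_add_distrib]
  refine Finset.sum_congr rfl fun k _ => ?_
  simp only [e]
  rw [mul_add, Finset.mul_sum, Finset.sum_mul]
  have : ∑ i, pd i g (x k) * (h x * dv k i v x + v x * dv k i h x) =
      ∑ i, h x * (pd i g (x k) * dv k i v x) + ∑ i, pd i g (x k) * dv k i h x * v x := by
    rw [← Finset.sum_add_distrib]
    exact Finset.sum_congr rfl fun i _ => by ring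
  rw [this]
  ring

/-- the derivative along the field from a line derivative -/
theorem poeD_line {n : ℕ} (g : R3 → ℝ) (h : Cf n → ℝ) (x : Cf n) (a : ℝ)
    (hd : DifferentiableAt ℝ h x)
    (hl : HasDerivAt (fun t : ℝ => h (x + t • poeF g x)) a 0) : poeD g h x = a := by
  rw [poeD_eq]
  have h1 : HasLineDerivAt ℝ h (fderiv ℝ h x (poeF g x)) x (poeF g x) :=
    hd.hasFDerivAt.hasLineDerivAt _
  exact HasDerivAt.unique h1 hl

/-! ### the regularised pair potential -/

/-- `|x k - x l|² + e²` -/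
noncomputable def poeq {n : ℕ} (k l : Fin n) (e : ℝ) (x : Cf n) : ℝ :=
  (x k 0 - x l 0) ^ 2 + (x k 1 - x l 1) ^ 2 + (x k 2 - x l 2) ^ 2 + e ^ 2

/-- the regularised potential -/
noncomputable def poew {n : ℕ} (k l : Fin n) (e : ℝ) (x : Cf n) : ℝ := (√(poeq k l e x))⁻¹

/-- its derivative along the field -/
noncomputable def poeh {n : ℕ} (g : R3 → ℝ) (k l : Fin n) (e : ℝ) (x : Cf n) : ℝ :=
  -((x k 0 - x l 0) * (pd 0 g (x k) - pd 0 g (x l)) +
    (x k 1 - x l 1) * (pd 1 g (x k) - pd 1 g (x l)) +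
    (x k 2 - x l 2) * (pd 2 g (x k) - pd 2 g (x l))) * poew k l e x ^ 3

theorem poeq_pos {n : ℕ} (k l : Fin n) {e : ℝ} (he : 0 < e) (x : Cf n) : 0 < poeq k l e x := by
  unfold poeq
  positivity

theorem poe_cd {n : ℕ} (k : Fin n) (i : Fin 3) :
    ContDiff ℝ (⊤ : ℕ∞) (fun x : Cf n => x k i) :=
  (contDiff_apply_apply ℝ ℝ k i)

theorem poeq_cd {n : ℕ} (k l : Fin n) (e : ℝ) : ContDiff ℝ (⊤ : ℕ∞) (poeq k l e) := by
  unfold poeq
  have h := fun (k : Fin n) (i : Fin 3) => poe_cd k i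
  exact (((((h k 0).sub (h l 0)).pow 2).add (((h k 1).sub (h l 1)).pow 2)).add
    (((h k 2).sub (h l 2)).pow 2)).add contDiff_const

theorem poew_cd {n : ℕ} (k l : Fin n) {e : ℝ} (he : 0 < e) :
    ContDiff ℝ (⊤ : ℕ∞) (poew k l e) := by
  unfold poew
  refine ContDiff.inv ?_ fun x => (Real.sqrt_pos.2 (poeq_pos k l he x)).ne'
  exact (poeq_cd k l e).sqrt fun x => (poeq_pos k l he x).ne'

theorem poe_pd_cd {g : R3 → ℝ} (hg : ContDiff ℝ (⊤ : ℕ∞) g) (i : Fin 3) :
    ContDiff ℝ (⊤ : ℕ∞) (pd i g) := by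
  unfold pd
  exact (hg.fderiv_right (m := (⊤ : ℕ∞)) (by simp)).clm_apply contDiff_const

theorem poe_pdk_cd {n : ℕ} {g : R3 → ℝ} (hg : ContDiff ℝ (⊤ : ℕ∞) g) (i : Fin 3) (k : Fin n) :
    ContDiff ℝ (⊤ : ℕ∞) (fun x : Cf n => pd i g (x k)) :=
  (poe_pd_cd hg i).comp (contDiff_apply ℝ R3 k)

theorem poeh_cd {n : ℕ} {g : R3 → ℝ} (hg : ContDiff ℝ (⊤ : ℕ∞) g) (k l : Fin n) {e : ℝ}
    (he : 0 < e) : ContDiff ℝ (⊤ : ℕ∞) (poeh g k l e) := by
  unfold poeh
  have h := fun (k : Fin n) (i : Fin 3) => poe_cd k i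
  have p := fun (k : Fin n) (i : Fin 3) => poe_pdk_cd hg i k
  exact ((((((h k 0).sub (h l 0)).mul ((p k 0).sub (p l 0))).add
    (((h k 1).sub (h l 1)).mul ((p k 1).sub (p l 1)))).add
    (((h k 2).sub (h l 2)).mul ((p k 2).sub (p l 2)))).neg).mul ((poew_cd k l he).pow 3)

/-- one-variable derivative of a linear coordinate difference -/
theorem poe_lin (a b c d : ℝ) : HasDerivAt (fun t : ℝ => (a + t * b) - (c + t * d)) (b - d) 0 := by
  have h1 : HasDerivAt (fun t : ℝ => a + t * b) b 0 := by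
    simpa using (hasDerivAt_mul_const b).const_add a
  have h2 : HasDerivAt (fun t : ℝ => c + t * d) d 0 := by
    simpa using (hasDerivAt_mul_const d).const_add c
  exact h1.sub h2

theorem poe_q_line {n : ℕ} (g : R3 → ℝ) (k l : Fin n) (e : ℝ) (x : Cf n) :
    HasDerivAt (fun t : ℝ => poeq k l e (x + t • poeF g x))
      (2 * ((x k 0 - x l 0) * (pd 0 g (x k) - pd 0 g (x l)) +
        (x k 1 - x l 1) * (pd 1 g (x k) - pd 1 g (x l)) +
        (x k 2 - x l 2) * (pd 2 g (x k) - pd 2 g (x l)))) 0 := by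
  have L := fun i : Fin 3 => (poe_lin (x k i) (pd i g (x k)) (x l i) (pd i g (x l))).pow 2
  have := (((L 0).add (L 1)).add (L 2)).add_const (e ^ 2)
  refine HasDerivAt.congr_deriv (f := fun t : ℝ => poeq k l e (x + t • poeF g x)) this ?_
  simp
  ring

theorem poe_w_line {n : ℕ} (g : R3 → ℝ) (k l : Fin n) {e : ℝ} (he : 0 < e) (x : Cf n) :
    HasDerivAt (fun t : ℝ => poew k l e (x + t • poeF g x)) (poeh g k l e x) 0 := by
  have hq := poe_q_line g k l e x
  have hx0 : x + (0 : ℝ) • poeF g x = x := by simp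
  have hpos : 0 < poeq k l e x := poeq_pos k l he x
  have hs : 0 < √(poeq k l e x) := Real.sqrt_pos.2 hpos
  have h1 := hq.sqrt (by rw [hx0]; exact hpos.ne')
  have h2 := h1.inv (by rw [hx0]; exact hs.ne')
  refine HasDerivAt.congr_deriv (f := fun t : ℝ => poew k l e (x + t • poeF g x)) h2 ?_
  rw [hx0]
  unfold poeh poew
  have hsq : √(poeq k l e x) ^ 2 = poeq k l e x := Real.sq_sqrt hpos.le
  field_simp

theorem poeD_w {n : ℕ} {g : R3 → ℝ} (k l : Fin n) {e : ℝ} (he : 0 < e)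
    (x : Cf n) : poeD g (poew k l e) x = poeh g k l e x :=
  poeD_line g _ x _ ((poew_cd k l he).differentiable (by simp) x) (poe_w_line g k l he x)

/-- `∇g · ∇ (∂_i g)` -/
noncomputable def poea (g : R3 → ℝ) (i : Fin 3) (y : R3) : ℝ := ∑ j, pd j g y * pd j (pd i g) y

theorem poe_pd_line {n : ℕ} {g : R3 → ℝ} (hg : ContDiff ℝ (⊤ : ℕ∞) g) (i : Fin 3) (k : Fin n)
    (x : Cf n) : HasDerivAt (fun t : ℝ => pd i g ((x + t • poeF g x) k)) (poea g i (x k)) 0 := by
  have hd : DifferentiableAt ℝ (pd i g) (x k) := (poe_pd_cd hg i).differentiable (by simp) (x k)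
  have h1 : HasLineDerivAt ℝ (pd i g) (fderiv ℝ (pd i g) (x k) (fun j => pd j g (x k))) (x k)
      (fun j => pd j g (x k)) := hd.hasFDerivAt.hasLineDerivAt _
  have e : fderiv ℝ (pd i g) (x k) (fun j => pd j g (x k)) = poea g i (x k) := by
    have e1 : (fun j => pd j g (x k)) = ∑ j, pd j g (x k) • (Pi.single j 1 : R3) := by
      funext j'
      simp [Finset.sum_apply, Pi.single_apply]
    rw [e1, map_sum]
    unfold poea
    refine Finset.sum_congr rfl fun j _ => ?_
    rw [map_smul]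
    rfl
  rw [e] at h1
  exact h1

theorem poeD_h {n : ℕ} {g : R3 → ℝ} (hg : ContDiff ℝ (⊤ : ℕ∞) g) (k l : Fin n) {e : ℝ}
    (he : 0 < e) (x : Cf n) : poeD g (poeh g k l e) x =
      -(((pd 0 g (x k) - pd 0 g (x l)) ^ 2 + (pd 1 g (x k) - pd 1 g (x l)) ^ 2 +
        (pd 2 g (x k) - pd 2 g (x l)) ^ 2) +
        ((x k 0 - x l 0) * (poea g 0 (x k) - poea g 0 (x l)) +
        (x k 1 - x l 1) * (poea g 1 (x k) - poea g 1 (x l)) +
        (x k 2 - x l 2) * (poea g 2 (x k) - poea g 2 (x l)))) * poew k l e x ^ 3 +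
      3 * ((x k 0 - x l 0) * (pd 0 g (x k) - pd 0 g (x l)) +
        (x k 1 - x l 1) * (pd 1 g (x k) - pd 1 g (x l)) +
        (x k 2 - x l 2) * (pd 2 g (x k) - pd 2 g (x l))) ^ 2 * poew k l e x ^ 5 := by
  refine poeD_line g _ x _ ((poeh_cd hg k l he).differentiable (by simp) x) ?_
  have hx0 : x + (0 : ℝ) • poeF g x = x := by simp
  have W := poe_w_line g k l he x
  have L := fun i : Fin 3 => poe_lin (x k i) (pd i g (x k)) (x l i) (pd i g (x l))
  have P := fun i : Fin 3 => (poe_pd_line hg i k x).sub (poe_pd_line hg i l x)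
  have M := fun i : Fin 3 => (L i).mul (P i)
  have := ((((M 0).add (M 1)).add (M 2)).neg).mul (W.pow 3)
  refine HasDerivAt.congr_deriv (f := fun t : ℝ => poeh g k l e (x + t • poeF g x)) this ?_
  simp [hx0]
  unfold poeh
  ring

end Pool.Agent.Helper14.PW
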