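import Pool.Agent.Helper14.PW.POEa

set_option autoImplicit false

namespace Pool.Agent.Helper14.PW

open MeasureTheory Filter Topology Pool.Agent.Helper95.PW

theorem poe_le_nr (y : R3) : ‖y‖ ≤ nr y := by
  unfold nr
  rw [pi_norm_le_iff_of_nonneg (Real.sqrt_nonneg _)]
  intro i
  rw [Real.norm_eq_abs]
  refine Real.abs_le_sqrt ?_
  fin_cases i
  · show y 0 ^ 2 ≤ y 0 ^ 2 + y 1 ^ 2 + y 2 ^ 2
    nlinarith [sq_nonneg (y 1), sq_nonneg (y 2)]
  · show y 1 ^ 2 ≤ y 0 ^ 2 + y 1 ^ 2 + y 2 ^ 2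
    nlinarith [sq_nonneg (y 0), sq_nonneg (y 2)]
  · show y 2 ^ 2 ≤ y 0 ^ 2 + y 1 ^ 2 + y 2 ^ 2
    nlinarith [sq_nonneg (y 0), sq_nonneg (y 1)]

theorem poe_abs_le_nr (y : R3) (i : Fin 3) : |y i| ≤ nr y := by
  have := norm_le_pi_norm y i
  rw [Real.norm_eq_abs] at this
  exact this.trans (poe_le_nr y)

theorem poe_fderiv {φ : R3 → ℝ} (y v : R3) : fderiv ℝ φ y v = ∑ j, v j * pd j φ y := by
  have e1 : v = ∑ j, v j • (Pi.single j 1 : R3) := by
    funext j'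
    simp [Finset.sum_apply, Pi.single_apply]
  conv_lhs => rw [e1]
  rw [map_sum]
  refine Finset.sum_congr rfl fun j _ => ?_
  rw [map_smul]
  rfl

theorem poe_lip {φ : R3 → ℝ} (hφ : Differentiable ℝ φ) {M : ℝ} (hM : 0 ≤ M)
    (h : ∀ j y, |pd j φ y| ≤ M) (a b : R3) : |φ a - φ b| ≤ 3 * M * nr (a - b) := by
  have h1 : ∀ y : R3, ‖fderiv ℝ φ y‖ ≤ 3 * M := by
    intro y
    refine ContinuousLinearMap.opNorm_le_bound _ (by positivity) fun v => ?_
    rw [poe_fderiv, Real.norm_eq_abs]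
    refine (Finset.abs_sum_le_sum_abs _ _).trans ?_
    calc ∑ j, |v j * pd j φ y| ≤ ∑ _j : Fin 3, ‖v‖ * M := by
          refine Finset.sum_le_sum fun j _ => ?_
          rw [abs_mul]
          have := norm_le_pi_norm v j
          rw [Real.norm_eq_abs] at this
          exact mul_le_mul this (h j y) (abs_nonneg _) (norm_nonneg _)
      _ = 3 * M * ‖v‖ := by
          simp
          ring
  have h2 := Convex.norm_image_sub_le_of_norm_fderiv_le (𝕜 := ℝ) (f := φ) (s := Set.univ)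
    (C := 3 * M) (fun y _ => hφ y) (fun y _ => h1 y) convex_univ (Set.mem_univ b) (Set.mem_univ a)
  rw [Real.norm_eq_abs] at h2
  exact h2.trans (mul_le_mul_of_nonneg_left (poe_le_nr _) (by positivity))

theorem poea_cd {g : R3 → ℝ} (hg : ContDiff ℝ (⊤ : ℕ∞) g) (i : Fin 3) :
    ContDiff ℝ (⊤ : ℕ∞) (poea g i) := by
  unfold poea
  exact ContDiff.sum fun j _ => (poe_pd_cd hg j).mul (poe_pd_cd (poe_pd_cd hg i) j)

theorem poea_pd {g : R3 → ℝ} {K r : ℝ} (hS : Scale g K r) (hr : 0 < r) (i l : Fin 3) (y : R3) :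
    |pd l (poea g i) y| ≤ 6 * (K ^ 2 / r ^ 2) := by
  have hg := hS.sm
  have hK : 0 ≤ K := (abs_nonneg _).trans (hS.d1 0 0)
  have D1 : ∀ j, DifferentiableAt ℝ (pd j g) y := fun j =>
    (poe_pd_cd hg j).differentiable (by simp) y
  have D2 : ∀ j, DifferentiableAt ℝ (pd j (pd i g)) y := fun j =>
    (poe_pd_cd (poe_pd_cd hg i) j).differentiable (by simp) y
  have e : pd l (poea g i) y = ∑ j, (pd j g y * pd l (pd j (pd i g)) y +
      pd j (pd i g) y * pd l (pd j g) y) := by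
    have e0 : poea g i = fun y => ∑ j, pd j g y * pd j (pd i g) y := rfl
    rw [e0]
    show fderiv ℝ (fun y => ∑ j, pd j g y * pd j (pd i g) y) y (Pi.single l 1) = _
    have D3 : ∀ j, DifferentiableAt ℝ (fun y => pd j g y * pd j (pd i g) y) y := fun j =>
      (D1 j).mul (D2 j)
    rw [fderiv_fun_sum fun j _ => D3 j]
    rw [ContinuousLinearMap.sum_apply]
    refine Finset.sum_congr rfl fun j _ => ?_
    rw [fderiv_fun_mul (D1 j) (D2 j)]
    simp only [ContinuousLinearMap.add_apply, ContinuousLinearMap.smul_apply, smul_eq_mul]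
    rfl
  rw [e]
  refine (Finset.abs_sum_le_sum_abs _ _).trans ?_
  calc ∑ j, |pd j g y * pd l (pd j (pd i g)) y + pd j (pd i g) y * pd l (pd j g) y|
      ≤ ∑ _j : Fin 3, 2 * (K ^ 2 / r ^ 2) := by
        refine Finset.sum_le_sum fun j _ => ?_
        refine (abs_add_le _ _).trans ?_
        rw [abs_mul, abs_mul]
        have h1 : |pd j g y| * |pd l (pd j (pd i g)) y| ≤ K * (K / r ^ 2) :=
          mul_le_mul (hS.d1 j y) (hS.d3 l j i y) (abs_nonneg _) hK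
        have h2 : |pd j (pd i g) y| * |pd l (pd j g) y| ≤ K / r * (K / r) :=
          mul_le_mul (hS.d2 j i y) (hS.d2 l j y) (abs_nonneg _) (by positivity)
        have h3 : K * (K / r ^ 2) = K ^ 2 / r ^ 2 := by ring
        have h4 : K / r * (K / r) = K ^ 2 / r ^ 2 := by
          field_simp
        linarith
    _ = 6 * (K ^ 2 / r ^ 2) := by
        simp
        ring

theorem poe_alg {z0 z1 z2 d0 d1 d2 b0 b1 b2 R m w c : ℝ} (hR : 0 ≤ R) (hR2 : R ^ 2 = z0 ^ 2 + z1 ^ 2 + z2 ^ 2)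
    (hw : 0 < w) (hwR : w ^ 2 * R ^ 2 ≤ 1) (hc : 0 ≤ c) (hm : 0 ≤ m) (hmc : m ^ 2 = c)
    (h0 : |d0| ≤ 3 * m * R) (h1 : |d1| ≤ 3 * m * R) (h2 : |d2| ≤ 3 * m * R)
    (k0 : |b0| ≤ 18 * c * R) (k1 : |b1| ≤ 18 * c * R) (k2 : |b2| ≤ 18 * c * R)
    (a0 : |z0| ≤ R) (a1 : |z1| ≤ R) (a2 : |z2| ≤ R) :
    -((d0 ^ 2 + d1 ^ 2 + d2 ^ 2) + (z0 * b0 + z1 * b1 + z2 * b2)) * w ^ 3 +
      3 * (z0 * d0 + z1 * d1 + z2 * d2) ^ 2 * w ^ 5 ≤ 108 * c * w := by
  have hd : ∀ d : ℝ, |d| ≤ 3 * m * R → d ^ 2 ≤ 9 * c * R ^ 2 := by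
    intro d h
    have := pow_le_pow_left₀ (abs_nonneg d) h 2
    rw [sq_abs] at this
    calc d ^ 2 ≤ (3 * m * R) ^ 2 := this
      _ = 9 * c * R ^ 2 := by rw [← hmc]; ring
  have hzb : ∀ z b : ℝ, |z| ≤ R → |b| ≤ 18 * c * R → -(z * b) ≤ 18 * c * R ^ 2 := by
    intro z b hz hb
    have h3 : |z * b| ≤ R * (18 * c * R) := by
      rw [abs_mul]
      exact mul_le_mul hz hb (abs_nonneg _) hR
    have h4 := neg_abs_le (z * b)
    have h5 : R * (18 * c * R) = 18 * c * R ^ 2 := by ring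
    linarith
  set S := d0 ^ 2 + d1 ^ 2 + d2 ^ 2 with hS
  have hS0 : 0 ≤ S := by positivity
  have hSle : S ≤ 27 * c * R ^ 2 := by
    have := hd d0 h0
    have := hd d1 h1
    have := hd d2 h2
    rw [hS]
    linarith
  have hCS : (z0 * d0 + z1 * d1 + z2 * d2) ^ 2 ≤ R ^ 2 * S := by
    rw [hR2, hS]
    nlinarith [sq_nonneg (z0 * d1 - z1 * d0), sq_nonneg (z0 * d2 - z2 * d0),
      sq_nonneg (z1 * d2 - z2 * d1)]
  have hw3 : 0 < w ^ 3 := by positivity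
  have h5 : 3 * (z0 * d0 + z1 * d1 + z2 * d2) ^ 2 * w ^ 5 ≤ 3 * S * w ^ 3 := by
    have h6 : (z0 * d0 + z1 * d1 + z2 * d2) ^ 2 * w ^ 2 ≤ S := by
      calc (z0 * d0 + z1 * d1 + z2 * d2) ^ 2 * w ^ 2 ≤ R ^ 2 * S * w ^ 2 :=
            mul_le_mul_of_nonneg_right hCS (by positivity)
        _ = (w ^ 2 * R ^ 2) * S := by ring
        _ ≤ 1 * S := mul_le_mul_of_nonneg_right hwR hS0
        _ = S := one_mul _
    have h7 := mul_le_mul_of_nonneg_right h6 (show 0 ≤ 3 * w ^ 3 by positivity)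
    calc 3 * (z0 * d0 + z1 * d1 + z2 * d2) ^ 2 * w ^ 5 =
        (z0 * d0 + z1 * d1 + z2 * d2) ^ 2 * w ^ 2 * (3 * w ^ 3) := by ring
      _ ≤ S * (3 * w ^ 3) := h7
      _ = 3 * S * w ^ 3 := by ring
  have h8 : -(S + (z0 * b0 + z1 * b1 + z2 * b2)) * w ^ 3 + 3 * S * w ^ 3 ≤
      108 * c * R ^ 2 * w ^ 3 := by
    have h9 : -(S + (z0 * b0 + z1 * b1 + z2 * b2)) + 3 * S ≤ 108 * c * R ^ 2 := by
      have := hzb z0 b0 a0 k0
      have := hzb z1 b1 a1 k1
      have := hzb z2 b2 a2 k2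
      linarith
    have := mul_le_mul_of_nonneg_right h9 hw3.le
    linarith
  have h10 : 108 * c * R ^ 2 * w ^ 3 ≤ 108 * c * w := by
    have : 108 * c * w * (w ^ 2 * R ^ 2) ≤ 108 * c * w * 1 :=
      mul_le_mul_of_nonneg_left hwR (by positivity)
    calc 108 * c * R ^ 2 * w ^ 3 = 108 * c * w * (w ^ 2 * R ^ 2) := by ring
      _ ≤ 108 * c * w * 1 := this
      _ = 108 * c * w := mul_one _
  linarith

theorem poe_pt {n : ℕ} {g : R3 → ℝ} {K r : ℝ} (hS : Scale g K r) (hr : 0 < r) (k l : Fin n)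
    {e : ℝ} (he : 0 < e) (x : Cf n) :
    poeD g (poeh g k l e) x ≤ 108 * (K ^ 2 / r ^ 2) * poew k l e x := by
  have hg := hS.sm
  have hK : 0 ≤ K := (abs_nonneg _).trans (hS.d1 0 0)
  rw [poeD_h hg k l he]
  have hpos := poeq_pos k l he x
  have hs := Real.sqrt_pos.2 hpos
  have hR2 : nr (x k - x l) ^ 2 = (x k 0 - x l 0) ^ 2 + (x k 1 - x l 1) ^ 2 +
      (x k 2 - x l 2) ^ 2 := by
    unfold nr
    rw [Real.sq_sqrt (by positivity)]
    rfl
  have hd : ∀ i : Fin 3, |pd i g (x k) - pd i g (x l)| ≤ 3 * (K / r) * nr (x k - x l) := by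
    intro i
    exact poe_lip ((poe_pd_cd hg i).differentiable (by simp)) (by positivity)
      (fun j y => hS.d2 j i y) _ _
  have hb : ∀ i : Fin 3, |poea g i (x k) - poea g i (x l)| ≤
      18 * (K ^ 2 / r ^ 2) * nr (x k - x l) := by
    intro i
    have := poe_lip ((poea_cd hg i).differentiable (by simp)) (M := 6 * (K ^ 2 / r ^ 2))
      (by positivity) (fun j y => poea_pd hS hr i j y) (x k) (x l)
    linarith
  have hz : ∀ i : Fin 3, |x k i - x l i| ≤ nr (x k - x l) := fun i =>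
    poe_abs_le_nr (x k - x l) i
  refine poe_alg (R := nr (x k - x l)) (m := K / r) (Real.sqrt_nonneg _) hR2 ?_ ?_
    (by positivity) (by positivity) (by rw [div_pow]) (hd 0) (hd 1) (hd 2) (hb 0) (hb 1) (hb 2)
    (hz 0) (hz 1) (hz 2)
  · unfold poew
    positivity
  · unfold poew
    rw [inv_pow, Real.sq_sqrt hpos.le, hR2, inv_mul_le_iff₀ hpos]
    unfold poeq
    nlinarith [sq_nonneg e]

end Pool.Agent.Helper14.PW
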