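import Pool.Agent.Helper14.PW.POEb

set_option autoImplicit false

namespace Pool.Agent.Helper14.PW

open MeasureTheory Filter Topology Pool.Agent.Helper95.PW

theorem poe_cs2 {n : ℕ} {v : Cf n → ℝ} (h : HasCompactSupport v) (W : Cf n → ℝ) :
    HasCompactSupport (fun x => W x * v x ^ 2) := by
  have h1 : HasCompactSupport (fun x => v x ^ 2) := by
    refine h.mono fun x hx => ?_
    rw [Function.mem_support] at hx ⊢
    intro h0
    exact hx (by rw [h0]; ring)
  exact h1.mul_left

theorem poe_int2 {n : ℕ} {v W : Cf n → ℝ} (h : HasCompactSupport v) (hv : Continuous v)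
    (hW : Continuous W) : Integrable (fun x => W x * v x ^ 2) :=
  (hW.mul (hv.pow 2)).integrable_of_hasCompactSupport (poe_cs2 h W)

theorem poe_int3 {n : ℕ} {p v W : Cf n → ℝ} (h : HasCompactSupport v) (hv : Continuous v)
    (hp : Continuous p) (hW : Continuous W) : Integrable (fun x => W x * p x * v x) :=
  ((hW.mul hp).mul hv).integrable_of_hasCompactSupport h.mul_left

theorem poe_Dc {n : ℕ} {g : R3 → ℝ} (hg : ContDiff ℝ (⊤ : ℕ∞) g) {h : Cf n → ℝ}
    (hh : ContDiff ℝ (⊤ : ℕ∞) h) : Continuous (poeD g h) := by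
  unfold poeD dv
  refine continuous_finset_sum _ fun k _ => continuous_finset_sum _ fun i _ => ?_
  refine (poe_pdk_cd hg i k).continuous.mul ?_
  exact (hh.continuous_fderiv (by simp)).clm_apply continuous_const

end Pool.Agent.Helper14.PW
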