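import Pool.Agent.Helper14.PW.POEc

set_option autoImplicit false
set_option maxHeartbeats 400000

namespace Pool.Agent.Helper14.PW

open MeasureTheory Filter Topology Pool.Agent.Helper95.PW

theorem poe_sm {n : ℕ} (hSTB : ST_STB) {g : R3 → ℝ} (hg : ContDiff ℝ (⊤ : ℕ∞) g)
    {v : Cf n → ℝ} (hv : ContDiff ℝ (⊤ : ℕ∞) v) (hvc : HasCompactSupport v) :
    ContDiff ℝ (⊤ : ℕ∞) (Pg g v) ∧ HasCompactSupport (Pg g v) := by
  have hsm : Sm (fun _ : Fin n → Fin 2 => v) := fun _ => ⟨hv, hvc⟩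
  exact (hSTB n g (fun _ => v) hg hsm).2.1 (fun _ => 0)

/-- the two integrations by parts -/
theorem poe_id1 {n : ℕ} (hPAN : ST_PAN) {g : R3 → ℝ} (hg : ContDiff ℝ (⊤ : ℕ∞) g)
    {v p W h : Cf n → ℝ} (hv : ContDiff ℝ (⊤ : ℕ∞) v) (hvc : HasCompactSupport v)
    (hp : ContDiff ℝ (⊤ : ℕ∞) p) (hpc : HasCompactSupport p) (hpv : Pg g v = p)
    (hW : ContDiff ℝ (⊤ : ℕ∞) W) (hh : ContDiff ℝ (⊤ : ℕ∞) h)
    (hWh : ∀ x, poeD g W x = h x) :
    ∫ x, W x * (Pg g p x * v x) = -((∫ x, W x * p x ^ 2) + ∫ x, h x * p x * v x) := by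
  have i1 := hPAN n g p (fun x => W x * v x) hg hp hpc (hW.mul hv)
  have e1 : ∀ x, Pg g (fun x => W x * v x) x = W x * p x + h x * v x := by
    intro x
    rw [poe_mul g W v x (hW.differentiable (by simp) x) (hv.differentiable (by simp) x), hWh, hpv]
  have I1 : Integrable (fun x => W x * p x ^ 2) := poe_int2 hpc hp.continuous hW.continuous
  have I2 : Integrable (fun x => h x * p x * v x) :=
    poe_int3 hvc hv.continuous hp.continuous hh.continuous
  rw [← integral_add I1 I2]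
  have a1 : ∫ x, W x * (Pg g p x * v x) = ∫ x, Pg g p x * (W x * v x) := by
    congr 1
    funext x
    ring
  have a2 : ∫ x, p x * Pg g (fun x => W x * v x) x =
      ∫ x, (W x * p x ^ 2 + h x * p x * v x) := by
    congr 1
    funext x
    rw [e1]
    ring
  rw [a1, i1, a2]

theorem poe_id2 {n : ℕ} (hPAN : ST_PAN) {g : R3 → ℝ} (hg : ContDiff ℝ (⊤ : ℕ∞) g)
    {v p h : Cf n → ℝ} (hv : ContDiff ℝ (⊤ : ℕ∞) v) (hvc : HasCompactSupport v)
    (hp : ContDiff ℝ (⊤ : ℕ∞) p) (hpv : Pg g v = p) (hh : ContDiff ℝ (⊤ : ℕ∞) h) :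
    ∫ x, h x * p x * v x = -((∫ x, h x * p x * v x) + ∫ x, poeD g h x * v x ^ 2) := by
  have i2 := hPAN n g v (fun x => h x * v x) hg hv hvc (hh.mul hv)
  have e2 : ∀ x, Pg g (fun x => h x * v x) x = h x * p x + poeD g h x * v x := by
    intro x
    rw [poe_mul g h v x (hh.differentiable (by simp) x) (hv.differentiable (by simp) x), hpv]
  have I2 : Integrable (fun x => h x * p x * v x) :=
    poe_int3 hvc hv.continuous hp.continuous hh.continuous
  have I3 : Integrable (fun x => poeD g h x * v x ^ 2) :=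
    poe_int2 hvc hv.continuous (poe_Dc hg hh)
  rw [← integral_add I2 I3]
  have a1 : ∫ x, h x * p x * v x = ∫ x, Pg g v x * (h x * v x) := by
    congr 1
    funext x
    rw [hpv]
    ring
  have a2 : ∫ x, v x * Pg g (fun x => h x * v x) x =
      ∫ x, (h x * p x * v x + poeD g h x * v x ^ 2) := by
    congr 1
    funext x
    rw [e2]
    ring
  rw [← a2, ← i2, ← a1]

/-- the inequality for one regularised pair -/
theorem poe_pair {n : ℕ} (hPAN : ST_PAN) (hSTB : ST_STB) {g : R3 → ℝ} {K r : ℝ}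
    (hS : Scale g K r) (hr : 0 < r) (k l : Fin n) {e : ℝ} (he : 0 < e) {v : Cf n → ℝ}
    (hv : ContDiff ℝ (⊤ : ℕ∞) v) (hvc : HasCompactSupport v) :
    (∫ x, poew k l e x * Pg g v x ^ 2) + (∫ x, poew k l e x * (Pg g (Pg g v) x * v x)) ≤
      54 * (K ^ 2 / r ^ 2) * ∫ x, poew k l e x * v x ^ 2 := by
  have hg := hS.sm
  obtain ⟨hpc, hps⟩ := poe_sm hSTB hg hv hvc
  have hWc : ContDiff ℝ (⊤ : ℕ∞) (poew k l e) := poew_cd k l he
  have hhc : ContDiff ℝ (⊤ : ℕ∞) (poeh g k l e) := poeh_cd hg k l he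
  have j1 := poe_id1 hPAN hg hv hvc hpc hps rfl hWc hhc (fun x => poeD_w k l he x)
  have j2 := poe_id2 hPAN hg hv hvc hpc rfl hhc
  have I3 : Integrable (fun x => poeD g (poeh g k l e) x * v x ^ 2) :=
    poe_int2 hvc hv.continuous (poe_Dc hg hhc)
  have I4 : Integrable (fun x => poew k l e x * v x ^ 2) :=
    poe_int2 hvc hv.continuous hWc.continuous
  have j3 : ∫ x, poeD g (poeh g k l e) x * v x ^ 2 ≤
      108 * (K ^ 2 / r ^ 2) * ∫ x, poew k l e x * v x ^ 2 := by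
    rw [← integral_const_mul]
    refine integral_mono I3 (I4.const_mul _) fun x => ?_
    have h1 := mul_le_mul_of_nonneg_right (poe_pt hS hr k l he x) (sq_nonneg (v x))
    calc poeD g (poeh g k l e) x * v x ^ 2 ≤ 108 * (K ^ 2 / r ^ 2) * poew k l e x * v x ^ 2 := h1
      _ = 108 * (K ^ 2 / r ^ 2) * (poew k l e x * v x ^ 2) := by ring
  rw [j1]
  linarith

end Pool.Agent.Helper14.PW
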